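import Pool.Agent.helper91.SI.Spec5

set_option autoImplicit false

namespace Pool.Agent.helper91.SI

open Pool.Agent.helper20.IG (IsIndepDom IsISet iGraph)

open Classical in
/-- `T` inside `K`, `X` outside `K`. -/
noncomputable def EMB_up {V : Type} [DecidableEq V] (K : Set V) (X : Finset V)
    (T : Finset K) : Finset V :=
  T.map (Function.Embedding.subtype (· ∈ K)) ∪ X.filter (· ∉ K)

open Classical in
/-- The part in `K`. -/
noncomputable def EMB_down {V : Type} (K : Set V) (Y : Finset V) : Finset K :=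
  Y.subtype (· ∈ K)

theorem EMB_mem_up {V : Type} [DecidableEq V] (K : Set V) (X : Finset V) (T : Finset K) (z : V) :
    z ∈ EMB_up K X T ↔ (∃ h : z ∈ K, (⟨z, h⟩ : K) ∈ T) ∨ (z ∉ K ∧ z ∈ X) := by
  classical
  unfold EMB_up
  rw [Finset.mem_union, Finset.mem_map, Finset.mem_filter]
  constructor
  · rintro (⟨a, ha, rfl⟩ | h)
    · exact Or.inl ⟨a.2, ha⟩
    · exact Or.inr ⟨h.2, h.1⟩
  · rintro (⟨h, hT⟩ | h)
    · exact Or.inl ⟨⟨z, h⟩, hT, rfl⟩
    · exact Or.inr ⟨h.2, h.1⟩

theorem EMB_up_in {V : Type} [DecidableEq V] (K : Set V) (X : Finset V) (T : Finset K) (z : V)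
    (h : z ∈ K) : z ∈ EMB_up K X T ↔ (⟨z, h⟩ : K) ∈ T := by
  rw [EMB_mem_up]
  constructor
  · rintro (⟨_, hT⟩ | h2)
    · exact hT
    · exact absurd h h2.1
  · exact fun hT => Or.inl ⟨h, hT⟩

theorem EMB_up_out {V : Type} [DecidableEq V] (K : Set V) (X : Finset V) (T : Finset K) (z : V)
    (h : z ∉ K) : z ∈ EMB_up K X T ↔ z ∈ X := by
  rw [EMB_mem_up]
  constructor
  · rintro (⟨h2, _⟩ | h2)
    · exact absurd h2 h
    · exact h2.2
  · exact fun hT => Or.inr ⟨h, hT⟩

theorem EMB_mem_down {V : Type} (K : Set V) (Y : Finset V) (z : K) :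
    z ∈ EMB_down K Y ↔ z.1 ∈ Y := by
  classical
  unfold EMB_down
  rw [Finset.mem_subtype]

theorem EMB_dom_up {V : Type} [DecidableEq V] (G : SimpleGraph V) (K : Set V) (X : Finset V)
    (hK : Clo G K) (hX : IsIndepDom G X) (T : Finset K) (hT : IsIndepDom (G.induce K) T) :
    IsIndepDom G (EMB_up K X T) := by
  refine ⟨?_, ?_⟩
  · intro u hu v hv huv
    by_cases h : u ∈ K
    · have h' : v ∈ K := (hK u v huv).1 h
      rw [EMB_up_in K X T u h] at hu
      rw [EMB_up_in K X T v h'] at hv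
      exact hT.1 _ hu _ hv huv
    · have h' : v ∉ K := fun h2 => h ((hK u v huv).2 h2)
      rw [EMB_up_out K X T u h] at hu
      rw [EMB_up_out K X T v h'] at hv
      exact hX.1 _ hu _ hv huv
  · intro v hv
    by_cases h : v ∈ K
    · rw [EMB_up_in K X T v h] at hv
      obtain ⟨u, hu, huv⟩ := hT.2 _ hv
      exact ⟨u.1, (EMB_up_in K X T u.1 u.2).2 hu, huv⟩
    · rw [EMB_up_out K X T v h] at hv
      obtain ⟨u, hu, huv⟩ := hX.2 _ hv
      have h' : u ∉ K := fun h2 => h ((hK u v huv).1 h2)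
      exact ⟨u, (EMB_up_out K X T u h').2 hu, huv⟩

theorem EMB_dom_down {V : Type} (G : SimpleGraph V) (K : Set V)
    (hK : Clo G K) (Y : Finset V) (hY : IsIndepDom G Y) :
    IsIndepDom (G.induce K) (EMB_down K Y) := by
  refine ⟨?_, ?_⟩
  · intro u hu v hv huv
    rw [EMB_mem_down] at hu hv
    exact hY.1 _ hu _ hv huv
  · intro v hv
    rw [EMB_mem_down] at hv
    obtain ⟨u, hu, huv⟩ := hY.2 _ hv
    have h' : u ∈ K := (hK u v.1 huv).2 v.2
    exact ⟨⟨u, h'⟩, (EMB_mem_down K Y _).2 hu, huv⟩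

open Classical in
theorem EMB_card_up {V : Type} [DecidableEq V] (K : Set V) (X : Finset V) (T : Finset K) :
    (EMB_up K X T).card = T.card + (X.filter (· ∉ K)).card := by
  unfold EMB_up
  rw [Finset.card_union_of_disjoint, Finset.card_map]
  rw [Finset.disjoint_left]
  intro z hz hz2
  rw [Finset.mem_map] at hz
  obtain ⟨a, _, rfl⟩ := hz
  rw [Finset.mem_filter] at hz2
  exact hz2.2 a.2

theorem EMB_up_down {V : Type} [DecidableEq V] (K : Set V) (X Y : Finset V)
    (h : ∀ z, z ∉ K → (z ∈ Y ↔ z ∈ X)) : EMB_up K X (EMB_down K Y) = Y := by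
  ext z
  by_cases hz : z ∈ K
  · rw [EMB_up_in K X _ z hz, EMB_mem_down]
  · rw [EMB_up_out K X _ z hz, h z hz]

theorem EMB_down_up {V : Type} [DecidableEq V] (K : Set V) (X : Finset V) (T : Finset K) :
    EMB_down K (EMB_up K X T) = T := by
  ext z
  rw [EMB_mem_down, EMB_up_in K X T z.1 z.2]

theorem EMB_iset_up {V : Type} [DecidableEq V] (G : SimpleGraph V) (K : Set V) (X : Finset V)
    (hK : Clo G K) (hX : IsISet G X) (T : Finset K) (hT : IsISet (G.induce K) T) :
    IsISet G (EMB_up K X T) := by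
  classical
  refine ⟨EMB_dom_up G K X hK hX.1 T hT.1, ?_⟩
  intro Z hZ
  have h1 := hT.2 _ (EMB_dom_down G K hK X hX.1)
  have h2 := EMB_card_up K X T
  have h3 := EMB_card_up K X (EMB_down K X)
  rw [EMB_up_down K X X (fun _ _ => Iff.rfl)] at h3
  have h4 := hX.2 Z hZ
  omega

theorem EMB_iset_down {V : Type} [DecidableEq V] (G : SimpleGraph V) (K : Set V) (X : Finset V)
    (hK : Clo G K) (hX : IsISet G X) (Y : Finset V) (hY : IsISet G Y)
    (h : ∀ z, z ∉ K → (z ∈ Y ↔ z ∈ X)) :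
    IsISet (G.induce K) (EMB_down K Y) := by
  classical
  refine ⟨EMB_dom_down G K hK Y hY.1, ?_⟩
  intro T hT
  have h1 := hY.2 _ (EMB_dom_up G K X hK hX.1 T hT)
  have h2 := EMB_card_up K X T
  have h3 := EMB_card_up K X (EMB_down K Y)
  rw [EMB_up_down K X Y h] at h3
  omega

theorem EMB : EMB_stmt := by
  intro V _ G K X hK
  refine ⟨?_⟩
  refine
    { toFun := fun T => ⟨⟨EMB_up K X.1 T.1, EMB_iset_up G K X.1 hK X.2 T.1 T.2⟩, ?_⟩
      invFun := fun Y => ⟨EMB_down K Y.1.1, EMB_iset_down G K X.1 hK X.2 Y.1.1 Y.1.2 Y.2⟩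
      left_inv := ?_
      right_inv := ?_
      map_rel_iff' := ?_ }
  · intro z hz
    exact EMB_up_out K X.1 T.1 z hz
  · intro T
    exact Subtype.ext (EMB_down_up K X.1 T.1)
  · intro Y
    exact Subtype.ext (Subtype.ext (EMB_up_down K X.1 Y.1.1 Y.2))
  · intro T T'
    constructor
    · rintro ⟨hne, u, hu, v, hv, huv, hY⟩
      change u ∈ EMB_up K X.1 T.1 at hu
      change v ∈ EMB_up K X.1 T'.1 at hv
      change EMB_up K X.1 T'.1 = insert v ((EMB_up K X.1 T.1).erase u) at hY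
      have huK : u ∈ K := by
        by_contra h
        have h2 : u ∈ EMB_up K X.1 T'.1 := by
          rw [EMB_up_out K X.1 T'.1 u h]
          rwa [EMB_up_out K X.1 T.1 u h] at hu
        exact (EMB_iset_up G K X.1 hK X.2 T'.1 T'.2).1.1 u h2 v hv huv
      have hvK : v ∈ K := (hK u v huv).1 huK
      refine ⟨?_, ⟨u, huK⟩, ?_, ⟨v, hvK⟩, ?_, huv, ?_⟩
      · intro h
        apply hne
        rw [h]
      · exact (EMB_up_in K X.1 T.1 u huK).1 hu
      · exact (EMB_up_in K X.1 T'.1 v hvK).1 hv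
      · ext z
        rw [← EMB_up_in K X.1 T'.1 z.1 z.2, hY, Finset.mem_insert, Finset.mem_erase,
          EMB_up_in K X.1 T.1 z.1 z.2, Finset.mem_insert, Finset.mem_erase]
        constructor
        · rintro (h | ⟨h1, h2⟩)
          · exact Or.inl (Subtype.ext h)
          · exact Or.inr ⟨fun h => h1 (congrArg Subtype.val h), h2⟩
        · rintro (h | ⟨h1, h2⟩)
          · exact Or.inl (congrArg Subtype.val h)
          · exact Or.inr ⟨fun h => h1 (Subtype.ext h), h2⟩
    · rintro ⟨hne, u, hu, v, hv, huv, hY⟩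
      refine ⟨?_, u.1, ?_, v.1, ?_, huv, ?_⟩
      · intro h
        apply hne
        have h2 : EMB_up K X.1 T.1 = EMB_up K X.1 T'.1 := congrArg Subtype.val h
        apply Subtype.ext
        rw [← EMB_down_up K X.1 T.1, h2, EMB_down_up]
      · exact (EMB_up_in K X.1 T.1 u.1 u.2).2 hu
      · exact (EMB_up_in K X.1 T'.1 v.1 v.2).2 hv
      · change EMB_up K X.1 T'.1 = insert v.1 ((EMB_up K X.1 T.1).erase u.1)
        ext z
        rw [Finset.mem_insert, Finset.mem_erase]
        by_cases hz : z ∈ K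
        · rw [EMB_up_in K X.1 T'.1 z hz, EMB_up_in K X.1 T.1 z hz, hY, Finset.mem_insert,
            Finset.mem_erase]
          constructor
          · rintro (h | ⟨h1, h2⟩)
            · exact Or.inl (congrArg Subtype.val h)
            · exact Or.inr ⟨fun h => h1 (Subtype.ext h), h2⟩
          · rintro (h | ⟨h1, h2⟩)
            · exact Or.inl (Subtype.ext h)
            · exact Or.inr ⟨fun h => h1 (congrArg Subtype.val h), h2⟩
        · rw [EMB_up_out K X.1 T'.1 z hz, EMB_up_out K X.1 T.1 z hz]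
          constructor
          · intro h
            exact Or.inr ⟨fun h2 => hz (h2 ▸ u.2), h⟩
          · rintro (h | ⟨_, h2⟩)
            · exact absurd (h ▸ v.2) hz
            · exact h2

end Pool.Agent.helper91.SI
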